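import Pool.Agent.H48.Cay.Graph

/-!
# Disjoint cliques in group graphs: solvable groups and solvable subgroups

`groupGraph L h1 hinv` is the graph `G(L, X)`, `IsMaxClique G C` says that `C` is a maximal
complete subgraph of `G`, and `TwoDisjointCliques G` says that `G` has two disjoint maximal
complete subgraphs (file `Pool/Agent/H48/Cay/Graph.lean`).

The main point (file `Pool/Agent/H48/Cay/Fix.lean`) is that in a finite graph in which any two
maximal complete subgraphs meet, every solvable group of automorphisms leaves a nonempty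
complete set invariant.
-/

namespace Pool.Agent.Results.MP_7e2204_co.SolvableSubgroups

open Pool.Agent.H48.Cay

/-- The statement of Q1 for the group `X`: every incomplete group graph `G(L, X)` has two
disjoint cliques. -/
def Q1For (X : Type) [Group X] : Prop :=
  ∀ (L : Set X) (h1 : (1 : X) ∉ L) (hinv : ∀ x ∈ L, x⁻¹ ∈ L),
    groupGraph L h1 hinv ≠ ⊤ → TwoDisjointCliques (groupGraph L h1 hinv)

/-- Lifting from the quotient by a normal subgroup inside `L ∪ {1}`. -/
theorem lift {X : Type} [Group X] (N : Subgroup X) [N.Normal] (L : Set X) (h1 : (1 : X) ∉ L)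
    (hinv : ∀ x ∈ L, x⁻¹ ∈ L) (hN : (N : Set X) ⊆ L ∪ {1}) (hQ : Q1For (X ⧸ N))
    (hne : groupGraph L h1 hinv ≠ ⊤) : TwoDisjointCliques (groupGraph L h1 hinv) := by
  refine two_of_quotient L h1 hinv N hN (hQ _ _ _ ?_)
  intro htop
  apply hne
  ext x y
  rw [SimpleGraph.top_adj]
  refine ⟨fun h => h.ne, fun hxy => ?_⟩
  change x⁻¹ * y ∈ L
  by_cases h : (x : X ⧸ N) = (y : X ⧸ N)
  · rcases hN (QuotientGroup.eq.1 h) with h2 | h2
    · exact h2
    · exact absurd (inv_mul_eq_one.1 h2) hxy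
  · have h3 : (⊤ : SimpleGraph (X ⧸ N)).Adj (x : X ⧸ N) (y : X ⧸ N) := h
    rw [← htop] at h3
    have h4 : (x : X ⧸ N)⁻¹ * (y : X ⧸ N) ∈ quotL L N := h3
    exact h4.2 _ rfl

theorem result (X : Type) [Group X] [Finite X] (L : Set X) (h1 : (1 : X) ∉ L)
    (hinv : ∀ x ∈ L, x⁻¹ ∈ L) (hne : groupGraph L h1 hinv ≠ ⊤)
    (h : (∃ K : Subgroup X, Group.IsSolvable K ∧ ∀ x : X, ∃ k ∈ K, x⁻¹ * k * x ∉ L ∪ {1}) ∨
      (∃ (N : Subgroup X) (_ : N.Normal), Group.IsSolvable N ∧ Q1For (X ⧸ N))) :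
    TwoDisjointCliques (groupGraph L h1 hinv) := by
  rcases h with ⟨K, hs, hK⟩ | ⟨N, hN, hs, hQ⟩
  · exact two_of_solvable_subgroup L h1 hinv K hK
  · by_cases hNL : (N : Set X) ⊆ L ∪ {1}
    · exact lift N L h1 hinv hNL hQ hne
    · refine two_of_solvable_subgroup L h1 hinv N (fun x => ?_)
      obtain ⟨y, hy, hyL⟩ := Set.not_subset.1 hNL
      refine ⟨x * y * x⁻¹, hN.conj_mem y hy x, ?_⟩
      have h2 : x⁻¹ * (x * y * x⁻¹) * x = y := by group
      rw [h2]
      exact hyL

/-- Special case: Q1 holds for every finite solvable group. -/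
theorem q1_of_solvable (X : Type) [Group X] [Finite X] [Group.IsSolvable X] : Q1For X := by
  intro L h1 hinv hne
  refine result X L h1 hinv hne (Or.inl ⟨⊤, ?_, fun x => ?_⟩)
  · exact Group.isSolvable_of_surjective (f := (Subgroup.topEquiv (G := X)).symm.toMonoidHom)
      (Subgroup.topEquiv (G := X)).symm.surjective
  · by_contra hcon
    push Not at hcon
    apply hne
    ext a b
    rw [SimpleGraph.top_adj]
    refine ⟨fun h => h.ne, fun hab => ?_⟩
    change a⁻¹ * b ∈ L
    have h3 := hcon (x * (a⁻¹ * b) * x⁻¹) (Subgroup.mem_top _)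
    have h2 : x⁻¹ * (x * (a⁻¹ * b) * x⁻¹) * x = a⁻¹ * b := by group
    rw [h2] at h3
    rcases h3 with h3 | h3
    · exact h3
    · exact absurd (inv_mul_eq_one.1 h3) hab

end Pool.Agent.Results.MP_7e2204_co.SolvableSubgroups
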