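import Pool.Agent.H93.Cay.Euler

/-!
# Disjoint maximal cliques in group graphs when some prime has no Sylow subgroup in `L ∪ {e}`
-/

namespace Pool.Agent.Results.MP_7e2204_co.SylowFree

/-- The group graph `G(L, X)`: the vertices are the elements of `X`, the edges are the pairs
`{x, x * l}` with `l ∈ L`. -/
def groupGraph {X : Type} [Group X] (L : Set X) (h1 : (1 : X) ∉ L) (hinv : ∀ x ∈ L, x⁻¹ ∈ L) :
    SimpleGraph X where
  Adj x y := x⁻¹ * y ∈ L
  symm := ⟨fun x y h => by simpa using hinv _ h⟩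
  loopless := ⟨fun x h => h1 (by simpa using h)⟩

/-- `C` is a maximal complete subgraph (a clique in the sense of the problem). -/
def IsMaxClique {V : Type} (G : SimpleGraph V) (C : Set V) : Prop :=
  G.IsClique C ∧ ∀ D : Set V, G.IsClique D → C ⊆ D → D = C

open Pool.Agent.H93.Cay

theorem exists_maxClique {V : Type} [Finite V] (G : SimpleGraph V) (C : Set V)
    (hC : G.IsClique C) : ∃ D, C ⊆ D ∧ IsMaxClique G D := by
  obtain ⟨D, hD1, hD2⟩ := (Set.toFinite {D : Set V | G.IsClique D}).exists_le_maximal hC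
  refine ⟨D, hD1, hD2.1, ?_⟩
  intro E hE hDE
  exact Set.Subset.antisymm (hD2.2 hE hDE) hDE

open scoped Pointwise in
theorem result {X : Type} [Group X] [Finite X] (L : Set X) (h1 : (1 : X) ∉ L)
    (hinv : ∀ x ∈ L, x⁻¹ ∈ L) (p : ℕ) (hp : p.Prime)
    (hS : ∀ P : Sylow p X, ¬ ((P : Set X) ⊆ L ∪ {1}))
    (C : Set X) (hC : IsMaxClique (groupGraph L h1 hinv) C) :
    ∃ D : Set X, IsMaxClique (groupGraph L h1 hinv) D ∧ Disjoint C D := by
  classical
  have : Fact p.Prime := ⟨hp⟩
  let _ : Fintype X := Fintype.ofFinite X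
  by_contra hcon
  push Not at hcon
  set G := groupGraph L h1 hinv with hG
  have hmeet : ∀ s : Finset X, G.IsClique (s : Set X) →
      ∃ c ∈ C.toFinset, ∀ v ∈ s, v ≠ c → G.Adj c v := by
    intro s hs
    obtain ⟨D, hsD, hD⟩ := exists_maxClique G (s : Set X) hs
    obtain ⟨c, hc, hcD⟩ := Set.not_disjoint_iff.1 (hcon D hD)
    refine ⟨c, by simpa using hc, fun v hv hne => ?_⟩
    exact hD.1 hcD (hsD (by simpa using hv)) (Ne.symm hne)
  have hC' : G.IsClique ((C.toFinset : Finset X) : Set X) := by simpa using hC.1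
  have hsum := sum_cl_eq_zero G C.toFinset hC' hmeet
  have hcard := card_even_eq_card_odd G hsum
  obtain ⟨P⟩ : Nonempty (Sylow p X) := inferInstance
  have hGinv : ∀ g x y : X, G.Adj x y → G.Adj (g * x) (g * y) := by
    intro g x y h
    change (g * x)⁻¹ * (g * y) ∈ L
    have h' : x⁻¹ * y ∈ L := h
    simpa [mul_assoc] using h'
  obtain ⟨s, ⟨x, hx⟩, hs, hfix⟩ := exists_invariant G hGinv hcard p P.1 P.2
  apply hS (MulAut.conj x⁻¹ • P)
  intro y hy
  have hy' : x * y * x⁻¹ ∈ P.1 := by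
    have h2 : y ∈ MulAut.conj x⁻¹ • (P : Subgroup X) := hy
    rw [Subgroup.mem_pointwise_smul_iff_inv_smul_mem] at h2
    simpa [MulAut.smul_def, ← map_inv, MulAut.conj_apply] using h2
  have h3 : x * y ∈ s := by
    have h4 := hfix _ hy'
    rw [← h4, Finset.mem_smul_finset]
    exact ⟨x, hx, by simp⟩
  by_cases hxy : x = x * y
  · right
    have : y = 1 := by simpa using hxy.symm
    exact this
  · left
    have h5 : G.Adj x (x * y) := hs hx h3 hxy
    have h6 : x⁻¹ * (x * y) ∈ L := h5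
    simpa using h6

end Pool.Agent.Results.MP_7e2204_co.SylowFree
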